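import Mathlib
import Pool.Agent.Helper112.Arith

/-!
Short sums of cubic characters: reduction to primitive characters.
-/

set_option autoImplicit false

namespace Pool.Agent.X159.CU

open Finset

/-- `∑_{M < a ≤ M + N} χ(a)` -/
noncomputable def S {q : ℕ} (χ : DirichletCharacter ℂ q) (M : ℤ) (N : ℕ) : ℂ :=
  ∑ a ∈ Finset.Ioc M (M + N), χ (a : ZMod q)

/-- The statement `C_n` for the nonprincipal cubic characters with the property `P`. -/
def C (P : (q : ℕ) → DirichletCharacter ℂ q → Prop) (n : ℕ) : Prop :=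
  ∃ δ : ℝ, 0 < δ ∧ ∀ ε : ℝ, 0 < ε → ∃ c : ℝ, ∀ Q : ℝ, 3 ≤ Q →
    ∀ N : ℕ, 1 ≤ N → (N : ℝ) ≤ Q ^ (1 / (n : ℝ)) → ∀ M : ℤ,
      ∀ q : ℕ, 1 ≤ q → (q : ℝ) ≤ Q → ∀ χ : DirichletCharacter ℂ q, χ ^ 3 = 1 → χ ≠ 1 → P q χ →
        ‖S χ M N‖ ≤ c * Q ^ ((1 - δ) / (n : ℝ) + ε)

/-- all nonprincipal cubic characters -/
def All : (q : ℕ) → DirichletCharacter ℂ q → Prop := fun _ _ => True

/-- the primitive ones -/
def Prim : (q : ℕ) → DirichletCharacter ℂ q → Prop := fun _ χ => χ.IsPrimitive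

/-- the ones with cubefree modulus -/
def Cubefree : (q : ℕ) → DirichletCharacter ℂ q → Prop := fun q _ => ∀ p : ℕ, p.Prime → ¬ p ^ 3 ∣ q

/-! ### Reduction to primitive characters -/

theorem moebius_gcd (g : ℕ) (hg : g ≠ 0) :
    ∑ d ∈ g.divisors, (ArithmeticFunction.moebius d : ℂ) = if g = 1 then 1 else 0 := by
  have h := congrArg (fun f : ArithmeticFunction ℤ => f g) ArithmeticFunction.moebius_mul_coe_zeta
  simp only [ArithmeticFunction.coe_mul_zeta_apply, ArithmeticFunction.one_apply] at h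
  have h2 : ((∑ d ∈ g.divisors, ArithmeticFunction.moebius d : ℤ) : ℂ)
      = ((if g = 1 then 1 else 0 : ℤ) : ℂ) := by rw [h]
  rw [Int.cast_sum] at h2
  rw [h2]
  split <;> simp

theorem sum_dvd {f : ℕ} (χ : DirichletCharacter ℂ f) (d : ℕ) (hd : 1 ≤ d) (M : ℤ) (N : ℕ) :
    ∑ a ∈ (Finset.Ioc M (M + N)).filter (fun a => (d : ℤ) ∣ a), χ (a : ZMod f)
      = χ (d : ZMod f) * S χ (M / d) ((M + N) / d - M / d).toNat := by
  have hdpos : (0 : ℤ) < d := by exact_mod_cast hd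
  have hle : M / d ≤ (M + N) / d := Int.ediv_le_ediv hdpos (by omega)
  unfold S
  rw [Finset.mul_sum]
  symm
  apply Finset.sum_bij (fun b _ => (d : ℤ) * b)
  · intro b hb
    rw [Finset.mem_Ioc] at hb
    rw [Int.toNat_of_nonneg (by omega)] at hb
    rw [Finset.mem_filter, Finset.mem_Ioc]
    refine ⟨⟨?_, ?_⟩, Dvd.intro _ rfl⟩
    · have := hb.1
      rw [Int.ediv_lt_iff_lt_mul hdpos] at this
      linarith [mul_comm b (d : ℤ)]
    · have h2 : b ≤ (M + N) / d := by omega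
      rw [Int.le_ediv_iff_mul_le hdpos] at h2
      linarith [mul_comm b (d : ℤ)]
  · intro b _ b' _ h
    exact mul_left_cancel₀ (ne_of_gt hdpos) h
  · intro a ha
    rw [Finset.mem_filter, Finset.mem_Ioc] at ha
    obtain ⟨⟨h1, h2⟩, b, rfl⟩ := ha
    refine ⟨b, ?_, rfl⟩
    rw [Finset.mem_Ioc, Int.toNat_of_nonneg (by omega)]
    constructor
    · rw [Int.ediv_lt_iff_lt_mul hdpos]
      linarith [mul_comm b (d : ℤ)]
    · have : b ≤ (M + N) / d := by
        rw [Int.le_ediv_iff_mul_le hdpos]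
        linarith [mul_comm b (d : ℤ)]
      omega
  · intro b _
    push_cast
    rw [map_mul]

theorem S_eq {q : ℕ} (hq : 1 ≤ q) (χ : DirichletCharacter ℂ q) (M : ℤ) (N : ℕ) :
    S χ M N = ∑ d ∈ q.divisors, (ArithmeticFunction.moebius d : ℂ) *
      (χ.primitiveCharacter (d : ZMod χ.conductor) *
        S χ.primitiveCharacter (M / d) ((M + N) / d - M / d).toNat) := by
  have h1 : ∀ d ∈ q.divisors, (ArithmeticFunction.moebius d : ℂ) *
      (χ.primitiveCharacter (d : ZMod χ.conductor) *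
        S χ.primitiveCharacter (M / d) ((M + N) / d - M / d).toNat)
      = ∑ a ∈ Finset.Ioc M (M + N), if (d : ℤ) ∣ a then
          (ArithmeticFunction.moebius d : ℂ) * χ.primitiveCharacter (a : ZMod χ.conductor)
          else 0 := by
    intro d hd
    have hd1 : 1 ≤ d := Nat.pos_of_mem_divisors hd
    rw [← sum_dvd _ d hd1, Finset.mul_sum, Finset.sum_filter]
  rw [Finset.sum_congr rfl h1, Finset.sum_comm]
  unfold S
  apply Finset.sum_congr rfl
  intro a _
  have hg : Int.gcd a q ≠ 0 := by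
    intro h
    rw [Int.gcd_eq_zero_iff] at h
    have : q = 0 := by exact_mod_cast h.2
    omega
  have h2 : ∑ d ∈ q.divisors, (if (d : ℤ) ∣ a then
          (ArithmeticFunction.moebius d : ℂ) * χ.primitiveCharacter (a : ZMod χ.conductor)
          else 0)
      = (∑ d ∈ (Int.gcd a q).divisors, (ArithmeticFunction.moebius d : ℂ)) *
        χ.primitiveCharacter (a : ZMod χ.conductor) := by
    rw [← Finset.sum_filter, Finset.sum_mul]
    apply Finset.sum_congr _ (fun _ _ => rfl)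
    ext d
    rw [Finset.mem_filter, Nat.mem_divisors, Nat.mem_divisors]
    constructor
    · rintro ⟨⟨h3, _⟩, h4⟩
      exact ⟨Int.natCast_dvd_natCast.mp (Int.dvd_coe_gcd h4 (by exact_mod_cast h3)), hg⟩
    · rintro ⟨h3, _⟩
      have h5 : (d : ℤ) ∣ (Int.gcd a q : ℤ) := by exact_mod_cast h3
      refine ⟨⟨?_, by omega⟩, h5.trans (Int.gcd_dvd_left ..)⟩
      have := h5.trans (Int.gcd_dvd_right ..)
      exact_mod_cast this
  rw [h2, moebius_gcd _ hg]
  by_cases hcop : Int.gcd a q = 1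
  · rw [if_pos hcop, one_mul]
    exact (χ.primitiveCharacter_apply_of_isCoprime (Int.isCoprime_iff_gcd_eq_one.mpr hcop)).symm
  · rw [if_neg hcop, zero_mul]
    exact (χ.apply_eq_zero_iff a).mpr (fun h => hcop (Int.isCoprime_iff_gcd_eq_one.mp h))

theorem toNat_le (M : ℤ) (N d : ℕ) (hd : 1 ≤ d) : ((M + N) / d - M / d).toNat ≤ N := by
  have hdpos : (0 : ℤ) < d := by exact_mod_cast hd
  have h1 : (M + N) / d ≤ M / d + N := by
    have h2 : M + N ≤ M + N * d := by
      have : (N : ℤ) * 1 ≤ N * d := by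
        apply mul_le_mul_of_nonneg_left _ (by positivity)
        exact_mod_cast hd
      linarith
    calc (M + N) / (d : ℤ) ≤ (M + N * d) / d := Int.ediv_le_ediv hdpos h2
      _ = M / d + N := Int.add_mul_ediv_right _ _ (ne_of_gt hdpos)
  omega

theorem norm_S_le {q : ℕ} (hq : 1 ≤ q) (χ : DirichletCharacter ℂ q) (M : ℤ) (N : ℕ) (B : ℝ)
    (hB : 0 ≤ B) (h : ∀ (M' : ℤ) (N' : ℕ), 1 ≤ N' → N' ≤ N → ‖S χ.primitiveCharacter M' N'‖ ≤ B) :
    ‖S χ M N‖ ≤ q.divisors.card * B := by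
  rw [S_eq hq]
  calc _ ≤ ∑ d ∈ q.divisors, ‖(ArithmeticFunction.moebius d : ℂ) *
      (χ.primitiveCharacter (d : ZMod χ.conductor) *
        S χ.primitiveCharacter (M / d) ((M + N) / d - M / d).toNat)‖ := norm_sum_le _ _
    _ ≤ ∑ _d ∈ q.divisors, B := by
        apply Finset.sum_le_sum
        intro d hd
        have hd1 : 1 ≤ d := Nat.pos_of_mem_divisors hd
        rw [norm_mul, norm_mul]
        have e1 : ‖(ArithmeticFunction.moebius d : ℂ)‖ ≤ 1 := by
          have := ArithmeticFunction.abs_moebius_le_one (n := d)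
          rw [Complex.norm_intCast]
          exact_mod_cast this
        have e2 : ‖χ.primitiveCharacter (d : ZMod χ.conductor)‖ ≤ 1 :=
          DirichletCharacter.norm_le_one _ _
        have e3 : ‖S χ.primitiveCharacter (M / d) ((M + N) / d - M / d).toNat‖ ≤ B := by
          rcases Nat.eq_zero_or_pos ((M + N) / d - M / d).toNat with h0 | h0
          · rw [h0]
            unfold S
            simpa using hB
          · exact h _ _ h0 (toNat_le M N d hd1)
        calc _ ≤ 1 * (1 * B) := by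
              apply mul_le_mul e1 _ (by positivity) (by norm_num)
              exact mul_le_mul e2 e3 (norm_nonneg _) (by norm_num)
          _ = B := by ring
    _ = _ := by rw [Finset.sum_const, nsmul_eq_mul]

theorem cubic_primitive {q : ℕ} (hq : 1 ≤ q) (χ : DirichletCharacter ℂ q) (h3 : χ ^ 3 = 1)
    (h1 : χ ≠ 1) : χ.primitiveCharacter ^ 3 = 1 ∧ χ.primitiveCharacter ≠ 1 := by
  have : NeZero q := ⟨by omega⟩
  have hinj := DirichletCharacter.changeLevel_injective (R := ℂ) χ.conductor_dvd_level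
  have hc := χ.changeLevel_primitiveCharacter
  constructor
  · apply hinj
    rw [map_pow, hc, h3, map_one]
  · intro h
    apply h1
    rw [← hc, h, map_one]

theorem all_of_prim {n : ℕ} (h : C Prim n) : C All n := by
  obtain ⟨δ, hδ, h⟩ := h
  refine ⟨δ, hδ, ?_⟩
  intro ε hε
  obtain ⟨c, hc⟩ := h (ε / 2) (by positivity)
  obtain ⟨K, hK0, hK⟩ := Helper112.divisor_bound (ε / 2) (by positivity)
  refine ⟨K * |c|, ?_⟩
  intro Q hQ N hN hNQ M q hq hqQ χ h3 h1 _
  obtain ⟨hp3, hp1⟩ := cubic_primitive hq χ h3 h1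
  have hQ0 : (0 : ℝ) < Q := by linarith
  have hcond : (χ.conductor : ℝ) ≤ Q := by
    have : χ.conductor ≤ q := Nat.le_of_dvd (by omega) χ.conductor_dvd_level
    exact le_trans (by exact_mod_cast this) hqQ
  have hcond1 : 1 ≤ χ.conductor := by
    have : NeZero q := ⟨by omega⟩
    exact Nat.pos_of_ne_zero χ.conductor_ne_zero
  have h2 := norm_S_le hq χ M N (|c| * Q ^ ((1 - δ) / (n : ℝ) + ε / 2)) (by positivity) (by
    intro M' N' hN' hN'N
    refine (hc Q hQ N' hN' ?_ M' χ.conductor hcond1 hcond χ.primitiveCharacter hp3 hp1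
      χ.primitiveCharacter_isPrimitive).trans ?_
    · exact le_trans (by exact_mod_cast hN'N) hNQ
    · exact mul_le_mul_of_nonneg_right (le_abs_self c) (by positivity))
  have h4 : (q.divisors.card : ℝ) ≤ K * Q ^ (ε / 2) := by
    refine (hK q hq).trans ?_
    apply mul_le_mul_of_nonneg_left _ hK0.le
    exact Real.rpow_le_rpow (by positivity) hqQ (by positivity)
  calc ‖S χ M N‖ ≤ q.divisors.card * (|c| * Q ^ ((1 - δ) / (n : ℝ) + ε / 2)) := h2
    _ ≤ (K * Q ^ (ε / 2)) * (|c| * Q ^ ((1 - δ) / (n : ℝ) + ε / 2)) :=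
        mul_le_mul_of_nonneg_right h4 (by positivity)
    _ = K * |c| * (Q ^ ((1 - δ) / (n : ℝ) + ε / 2) * Q ^ (ε / 2)) := by ring
    _ = K * |c| * Q ^ ((1 - δ) / (n : ℝ) + ε) := by
        rw [← Real.rpow_add hQ0]
        congr 2
        ring

theorem mono {P P' : (q : ℕ) → DirichletCharacter ℂ q → Prop} {n : ℕ}
    (hP : ∀ (q : ℕ) (χ : DirichletCharacter ℂ q), 1 ≤ q → χ ^ 3 = 1 → P' q χ → P q χ)
    (h : C P n) : C P' n := by
  obtain ⟨δ, hδ, h⟩ := h
  refine ⟨δ, hδ, ?_⟩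
  intro ε hε
  obtain ⟨c, hc⟩ := h ε hε
  exact ⟨c, fun Q hQ N hN hNQ M q hq hqQ χ h3 h1 hp =>
    hc Q hQ N hN hNQ M q hq hqQ χ h3 h1 (hP q χ hq h3 hp)⟩

/-! ### The conductor of a cubic character -/

theorem chi_one_of_coprime {q : ℕ} (χ : DirichletCharacter ℂ q) (h3 : χ ^ 3 = 1) {m : ℕ}
    (hm : Nat.Coprime m 3) (u : (ZMod q)ˣ) (hu : u ^ m = 1) : χ (u : ZMod q) = 1 := by
  have e3 : (χ (u : ZMod q)) ^ 3 = 1 := by
    rw [← MulChar.pow_apply_coe, h3]
    exact MulChar.one_apply_coe u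
  have em : (χ (u : ZMod q)) ^ m = 1 := by
    rw [← map_pow, ← Units.val_pow_eq_pow_val, hu]
    simp
  have h := pow_gcd_eq_one.mpr ⟨em, e3⟩
  have hm' : Nat.gcd m 3 = 1 := hm
  rw [hm'] at h
  simpa using h

theorem chi_one_of_cube {q : ℕ} (χ : DirichletCharacter ℂ q) (h3 : χ ^ 3 = 1) (u v : (ZMod q)ˣ)
    (hu : u = v ^ 3) : χ (u : ZMod q) = 1 := by
  have this : (χ (v : ZMod q)) ^ 3 = 1 := by
    rw [← MulChar.pow_apply_coe, h3]
    exact MulChar.one_apply_coe v
  rw [hu, Units.val_pow_eq_pow_val, map_pow, this]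

theorem factors {q d : ℕ} (hq : 1 ≤ q) (hd : d ∣ q) (χ : DirichletCharacter ℂ q)
    (h : ∀ u : (ZMod q)ˣ, ZMod.unitsMap hd u = 1 → χ (u : ZMod q) = 1) : χ.FactorsThrough d := by
  have : NeZero q := ⟨by omega⟩
  rw [DirichletCharacter.factorsThrough_iff_ker_unitsMap hd]
  intro u hu
  rw [MonoidHom.mem_ker] at hu ⊢
  have := h u hu
  ext
  simpa using this

/-- a unit congruent to `1` modulo `d` is `1 + d t` -/
theorem unit_form {q d : ℕ} (hq : 1 ≤ q) (hd : d ∣ q) (u : (ZMod q)ˣ)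
    (hu : ZMod.unitsMap hd u = 1) : ∃ t : ZMod q, (u : ZMod q) = 1 + (d : ZMod q) * t := by
  have : NeZero q := ⟨by omega⟩
  have h1 : (ZMod.castHom hd (ZMod d)) (u : ZMod q) = 1 := by
    have := congrArg (fun w : (ZMod d)ˣ => (w : ZMod d)) hu
    simpa [ZMod.unitsMap_def] using this
  have h2 : (((u : ZMod q).val : ℕ) : ZMod d) = ((1 : ℕ) : ZMod d) := by
    rw [ZMod.castHom_apply, ZMod.cast_eq_val] at h1
    simpa using h1
  have h3 : ((d : ℕ) : ℤ) ∣ ((u : ZMod q).val : ℤ) - 1 := by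
    have : (((((u : ZMod q).val : ℤ) - 1 : ℤ)) : ZMod d) = 0 := by
      push_cast
      push_cast at h2
      rw [h2]
      ring
    exact (ZMod.intCast_zmod_eq_zero_iff_dvd _ _).mp this
  obtain ⟨t, ht⟩ := h3
  refine ⟨(t : ZMod q), ?_⟩
  have h4 : (((u : ZMod q).val : ℤ)) = 1 + d * t := by linarith
  have h5 : ((((u : ZMod q).val : ℤ)) : ZMod q) = ((1 + d * t : ℤ) : ZMod q) := by rw [h4]
  push_cast at h5
  rw [ZMod.natCast_zmod_val] at h5
  exact h5

theorem sq_zero_pow {R : Type*} [CommRing R] (x : R) (hx : x * x = 0) (m : ℕ) :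
    (1 + x) ^ m = 1 + m * x := by
  induction m with
  | zero => simp
  | succ m ih =>
    rw [pow_succ, ih]
    push_cast
    have : (1 + (m : R) * x) * (1 + x) = 1 + (m + 1) * x + m * (x * x) := by ring
    rw [this, hx]
    ring

/-- Case A: `p ≠ 3`, `p² ∣ q`. -/
theorem caseA {q p : ℕ} (hq : 1 ≤ q) (hp : p.Prime) (hp3 : p ≠ 3) (h : p ^ 2 ∣ q)
    (χ : DirichletCharacter ℂ q) (h3 : χ ^ 3 = 1) : χ.FactorsThrough (q / p) := by
  have hpq : p ∣ q := (dvd_pow_self p (by norm_num)).trans h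
  have hd : q / p ∣ q := Nat.div_dvd_of_dvd hpq
  apply factors hq hd
  intro u hu
  obtain ⟨t, ht⟩ := unit_form hq hd u hu
  have hcop : Nat.Coprime p 3 := (Nat.coprime_primes hp Nat.prime_three).mpr hp3
  apply chi_one_of_coprime χ h3 hcop
  ext
  rw [Units.val_pow_eq_pow_val, ht]
  obtain ⟨r, hr⟩ := h
  have hp0 : 0 < p := hp.pos
  have hdr : q / p = p * r := by
    rw [hr]
    have : p ^ 2 * r = p * (p * r) := by ring
    rw [this, Nat.mul_div_cancel_left _ hp0]
  have hqz : ((p : ZMod q)) * ((q / p : ℕ) : ZMod q) = 0 := by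
    rw [← Nat.cast_mul, Nat.mul_div_cancel' hpq]
    exact ZMod.natCast_self q
  have hsq : ((q / p : ℕ) : ZMod q) * t * (((q / p : ℕ) : ZMod q) * t) = 0 := by
    have : ((q / p : ℕ) : ZMod q) * ((q / p : ℕ) : ZMod q) = 0 := by
      nth_rewrite 1 [hdr]
      push_cast
      calc (p : ZMod q) * r * ((q / p : ℕ) : ZMod q) = r * ((p : ZMod q) * ((q / p : ℕ) : ZMod q)) := by
            ring
        _ = 0 := by rw [hqz]; ring
    calc _ = (((q / p : ℕ) : ZMod q) * ((q / p : ℕ) : ZMod q)) * (t * t) := by ring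
      _ = 0 := by rw [this]; ring
  rw [sq_zero_pow _ hsq]
  calc 1 + (p : ZMod q) * (((q / p : ℕ) : ZMod q) * t)
      = 1 + ((p : ZMod q) * ((q / p : ℕ) : ZMod q)) * t := by ring
    _ = ((1 : (ZMod q)ˣ) : ZMod q) := by rw [hqz]; simp

/-- Case B: `p ∣∣ q`, `3 ∤ p - 1`. -/
theorem caseB {q p : ℕ} (hq : 1 ≤ q) (hp : p.Prime) (hpq : p ∣ q) (h : ¬ p ^ 2 ∣ q)
    (hp1 : Nat.Coprime (p - 1) 3) (χ : DirichletCharacter ℂ q) (h3 : χ ^ 3 = 1) :
    χ.FactorsThrough (q / p) := by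
  have hd : q / p ∣ q := Nat.div_dvd_of_dvd hpq
  apply factors hq hd
  intro u hu
  obtain ⟨t, ht⟩ := unit_form hq hd u hu
  have : NeZero q := ⟨by omega⟩
  apply chi_one_of_coprime χ h3 hp1
  ext
  rw [Units.val_pow_eq_pow_val]
  -- an integer representative
  set a : ℤ := ((u : ZMod q).val : ℤ) with ha
  have hau : ((a : ℤ) : ZMod q) = (u : ZMod q) := by
    rw [ha]
    push_cast
    exact ZMod.natCast_zmod_val _
  have hcop : IsCoprime (p : ℤ) ((q / p : ℕ) : ℤ) := by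
    rw [Nat.isCoprime_iff_coprime, Nat.Prime.coprime_iff_not_dvd hp]
    intro hh
    apply h
    obtain ⟨r, hr⟩ := hh
    refine ⟨r, ?_⟩
    have := Nat.mul_div_cancel' hpq
    rw [hr] at this
    rw [← this]
    ring
  have h1 : (p : ℤ) ∣ a ^ (p - 1) - 1 := by
    have : Fact p.Prime := ⟨hp⟩
    have hne : ((a : ℤ) : ZMod p) ≠ 0 := by
      intro h0
      have h5 : (p : ℤ) ∣ a := (ZMod.intCast_zmod_eq_zero_iff_dvd _ _).mp h0
      have h6 : p ∣ (u : ZMod q).val := by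
        rw [ha] at h5
        exact Int.natCast_dvd_natCast.mp h5
      have h7 : Nat.Coprime (u : ZMod q).val q := ZMod.val_coe_unit_coprime u
      have := Nat.dvd_gcd h6 hpq
      rw [h7] at this
      exact hp.one_lt.ne' (Nat.dvd_one.mp this)
    rw [← ZMod.intCast_zmod_eq_zero_iff_dvd]
    push_cast
    rw [ZMod.pow_card_sub_one_eq_one hne]
    ring
  have h2 : ((q / p : ℕ) : ℤ) ∣ a ^ (p - 1) - 1 := by
    have h4 : ((q / p : ℕ) : ℤ) ∣ a - 1 := by
      have hh := congrArg (fun w : (ZMod (q / p))ˣ => (w : ZMod (q / p))) hu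
      have h5 : (ZMod.castHom hd (ZMod (q / p))) (u : ZMod q) = 1 := by
        simpa [ZMod.unitsMap_def] using hh
      rw [← hau] at h5
      rw [map_intCast] at h5
      rw [← ZMod.intCast_zmod_eq_zero_iff_dvd]
      push_cast
      rw [h5]
      ring
    have h6 : a - 1 ∣ a ^ (p - 1) - 1 := by
      simpa using sub_dvd_pow_sub_pow a 1 (p - 1)
    exact h4.trans h6
  have h8 : ((p * (q / p) : ℕ) : ℤ) ∣ a ^ (p - 1) - 1 := by
    push_cast
    exact hcop.mul_dvd h1 h2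
  rw [Nat.mul_div_cancel' hpq] at h8
  have h9 := (ZMod.intCast_zmod_eq_zero_iff_dvd _ _).mpr h8
  push_cast at h9
  rw [hau] at h9
  rw [sub_eq_zero] at h9
  rw [h9]
  simp

/-- Case C: `27 ∣ q`. -/
theorem caseC {q : ℕ} (hq : 1 ≤ q) (h : 27 ∣ q) (χ : DirichletCharacter ℂ q) (h3 : χ ^ 3 = 1) :
    χ.FactorsThrough (q / 3) := by
  obtain ⟨r, hr⟩ := h
  have hd : q / 3 ∣ q := Nat.div_dvd_of_dvd ⟨9 * r, by omega⟩
  apply factors hq hd
  intro u hu
  obtain ⟨t, ht⟩ := unit_form hq hd u hu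
  have hd3 : q / 3 = 9 * r := by omega
  rw [hd3] at ht
  have hz : (27 : ZMod q) * (r : ZMod q) = 0 := by
    have : ((27 * r : ℕ) : ZMod q) = 0 := by rw [← hr]; exact ZMod.natCast_self q
    exact_mod_cast this
  have hcube : (1 + 3 * (r : ZMod q) * t) ^ 3 = (u : ZMod q) := by
    rw [ht]
    push_cast
    have : (1 + 3 * (r : ZMod q) * t) ^ 3
        = 1 + 9 * r * t + (27 * r) * (r * t ^ 2 + r ^ 2 * t ^ 3) := by ring
    rw [this, hz]
    ring
  have hunit : IsUnit (1 + 3 * (r : ZMod q) * t) := by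
    have : IsUnit ((1 + 3 * (r : ZMod q) * t) ^ 3) := by
      rw [hcube]
      exact u.isUnit
    exact (isUnit_pow_iff (by norm_num)).mp this
  apply chi_one_of_cube χ h3 u hunit.unit
  ext
  rw [Units.val_pow_eq_pow_val]
  exact hcube.symm

theorem not_factors {q p : ℕ} (hq : 1 ≤ q) (hp : p.Prime) (hpq : p ∣ q)
    (χ : DirichletCharacter ℂ q) (hprim : χ.IsPrimitive) : ¬ χ.FactorsThrough (q / p) := by
  intro h
  have h1 : χ.conductor ≤ q / p := Nat.sInf_le h
  rw [hprim] at h1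
  have h2 : q / p < q := Nat.div_lt_self (by omega) hp.one_lt
  omega

/-- the modulus of a primitive cubic character -/
theorem modulus {q : ℕ} (hq : 1 ≤ q) (χ : DirichletCharacter ℂ q) (h3 : χ ^ 3 = 1)
    (hprim : χ.IsPrimitive) :
    (∀ p : ℕ, p.Prime → p ∣ q → p = 3 ∨ p % 3 = 1) ∧ (∀ p : ℕ, p.Prime → p ^ 2 ∣ q → p = 3) ∧
      (3 ∣ q → 9 ∣ q) ∧ ¬ 27 ∣ q := by
  have hA : ∀ p : ℕ, p.Prime → p ^ 2 ∣ q → p = 3 := by
    intro p hp h
    by_contra hne
    exact not_factors hq hp ((dvd_pow_self p (by norm_num)).trans h) χ hprim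
      (caseA hq hp hne h χ h3)
  have hC : ¬ 27 ∣ q := by
    intro h
    exact not_factors hq Nat.prime_three (Dvd.dvd.trans (by norm_num) h) χ hprim
      (caseC hq h χ h3)
  refine ⟨?_, hA, ?_, hC⟩
  · intro p hp hpq
    by_contra hcon
    push Not at hcon
    have hsq : ¬ p ^ 2 ∣ q := fun h => hcon.1 (hA p hp h)
    have hmod : p % 3 = 2 := by
      have h0 : p % 3 ≠ 0 := by
        intro h0
        have : 3 ∣ p := Nat.dvd_of_mod_eq_zero h0
        exact hcon.1 (((Nat.prime_dvd_prime_iff_eq Nat.prime_three hp).mp this).symm)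
      omega
    have hcop : Nat.Coprime (p - 1) 3 := by
      rw [Nat.coprime_comm, Nat.Prime.coprime_iff_not_dvd Nat.prime_three]
      intro h
      omega
    exact not_factors hq hp hpq χ hprim (caseB hq hp hpq hsq hcop χ h3)
  · intro h
    by_contra hcon
    have hsq : ¬ 3 ^ 2 ∣ q := by simpa using hcon
    exact not_factors hq Nat.prime_three h χ hprim
      (caseB hq Nat.prime_three h hsq (by norm_num) χ h3)

theorem modulus_form {q : ℕ} (hq : 1 ≤ q) (χ : DirichletCharacter ℂ q) (h3 : χ ^ 3 = 1)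
    (hprim : χ.IsPrimitive) :
    ∃ a s : ℕ, a ≤ 1 ∧ q = 9 ^ a * s ∧ Squarefree s ∧ ∀ p : ℕ, p.Prime → p ∣ s → p % 3 = 1 := by
  obtain ⟨h1, h2, h4, h5⟩ := modulus hq χ h3 hprim
  by_cases h : 3 ∣ q
  · obtain ⟨s, hs⟩ := h4 h
    have h3s : ¬ 3 ∣ s := by
      rintro ⟨r, rfl⟩
      exact h5 ⟨r, by rw [hs]; ring⟩
    refine ⟨1, s, le_rfl, by rw [hs]; ring, ?_, ?_⟩
    · rw [Nat.squarefree_iff_prime_squarefree]
      intro p hp hpp
      have : p ^ 2 ∣ q := by
        rw [hs, pow_two]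
        exact hpp.mul_left 9
      have := h2 p hp this
      subst this
      exact h3s ((Dvd.intro _ rfl).trans hpp)
    · intro p hp hps
      have hpq : p ∣ q := by rw [hs]; exact hps.mul_left 9
      rcases h1 p hp hpq with h6 | h6
      · subst h6
        exact absurd hps h3s
      · exact h6
  · refine ⟨0, q, by norm_num, by simp, ?_, ?_⟩
    · rw [Nat.squarefree_iff_prime_squarefree]
      intro p hp hpp
      have : p ^ 2 ∣ q := by rwa [pow_two]
      have := h2 p hp this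
      subst this
      exact h ((Dvd.intro _ rfl).trans hpp)
    · intro p hp hps
      rcases h1 p hp hps with h6 | h6
      · subst h6
        exact absurd hps h
      · exact h6

theorem cubefree_of_prim {q : ℕ} (hq : 1 ≤ q) (χ : DirichletCharacter ℂ q) (h3 : χ ^ 3 = 1)
    (hprim : χ.IsPrimitive) : Cubefree q χ := by
  obtain ⟨_, h2, _, h5⟩ := modulus hq χ h3 hprim
  intro p hp h
  have := h2 p hp ((pow_dvd_pow p (by norm_num)).trans h)
  subst this
  exact h5 (by simpa using h)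

/-! ### Monotonicity in `n` -/

theorem blocks {q : ℕ} (χ : DirichletCharacter ℂ q) (L : ℕ) (hL : 1 ≤ L) (B : ℝ) (hB : 0 ≤ B)
    (h : ∀ (M : ℤ) (N : ℕ), 1 ≤ N → N ≤ L → ‖S χ M N‖ ≤ B) (N : ℕ) (M : ℤ) :
    ‖S χ M N‖ ≤ ((N : ℝ) / L + 1) * B := by
  have hLR : (0 : ℝ) < L := by exact_mod_cast hL
  induction N using Nat.strong_induction_on generalizing M with
  | _ N ih =>
    rcases Nat.eq_zero_or_pos N with h0 | h0
    · subst h0
      unfold S
      simpa using hB
    by_cases hNL : N ≤ L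
    · calc ‖S χ M N‖ ≤ 1 * B := by rw [one_mul]; exact h M N h0 hNL
        _ ≤ ((N : ℝ) / L + 1) * B := by
            apply mul_le_mul_of_nonneg_right _ hB
            have : 0 ≤ (N : ℝ) / L := by positivity
            linarith
    · push Not at hNL
      have hsplit : S χ M N = S χ M L + S χ (M + L) (N - L : ℕ) := by
        unfold S
        rw [← Finset.sum_union]
        · apply Finset.sum_congr _ (fun _ _ => rfl)
          ext a
          rw [Finset.mem_union, Finset.mem_Ioc, Finset.mem_Ioc, Finset.mem_Ioc]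
          push_cast [Nat.cast_sub hNL.le]
          omega
        · rw [Finset.disjoint_left]
          intro a ha hb
          rw [Finset.mem_Ioc] at ha hb
          omega
      have h1 := ih (N - L) (by omega) (M + L)
      have h2 := h M L hL le_rfl
      have h3 : (((N - L : ℕ) : ℝ)) / L = (N : ℝ) / L - 1 := by
        rw [Nat.cast_sub hNL.le]
        field_simp
      rw [h3] at h1
      calc ‖S χ M N‖ ≤ ‖S χ M L‖ + ‖S χ (M + L) (N - L : ℕ)‖ := by
            rw [hsplit]; exact norm_add_le _ _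
        _ ≤ B + ((N : ℝ) / L - 1 + 1) * B := add_le_add h2 h1
        _ = _ := by ring

theorem C_down {P : (q : ℕ) → DirichletCharacter ℂ q → Prop} {n m : ℕ} (hn : 1 ≤ n) (hnm : n ≤ m)
    (h : C P m) : C P n := by
  obtain ⟨δ, hδ, h⟩ := h
  have hnR : (0 : ℝ) < n := by exact_mod_cast hn
  have hmR : (0 : ℝ) < m := lt_of_lt_of_le hnR (by exact_mod_cast hnm)
  refine ⟨δ * n / m, by positivity, ?_⟩
  intro ε hε
  obtain ⟨c, hc⟩ := h ε hε
  refine ⟨3 * |c|, ?_⟩
  intro Q hQ N hN hNQ M q hq hqQ χ h3 h1 hp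
  have hQ0 : (0 : ℝ) < Q := by linarith
  have hQ1 : (1 : ℝ) ≤ Q := by linarith
  set X : ℝ := Q ^ (1 / (m : ℝ)) with hX
  have hX1 : 1 ≤ X := Real.one_le_rpow hQ1 (by positivity)
  set L : ℕ := ⌊X⌋₊ with hL
  have hL1 : 1 ≤ L := Nat.one_le_floor_iff _ |>.mpr hX1
  have hLX : (L : ℝ) ≤ X := Nat.floor_le (by linarith)
  have hXL : X < L + 1 := Nat.lt_floor_add_one X
  have hLR : (1 : ℝ) ≤ L := by exact_mod_cast hL1
  set B : ℝ := |c| * Q ^ ((1 - δ) / (m : ℝ) + ε) with hB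
  have hB0 : 0 ≤ B := by positivity
  have h2 := blocks χ L hL1 B hB0 (by
    intro M' N' hN' hN'L
    refine (hc Q hQ N' hN' (le_trans (by exact_mod_cast hN'L) hLX) M' q hq hqQ χ h3 h1 hp).trans ?_
    exact mul_le_mul_of_nonneg_right (le_abs_self c) (by positivity)) N M
  have h4 : (N : ℝ) / L + 1 ≤ 3 * (Q ^ (1 / (n : ℝ)) / X) := by
    have e1 : (N : ℝ) / L ≤ 2 * (Q ^ (1 / (n : ℝ)) / X) := by
      have : X ≤ 2 * L := by linarith
      rw [div_le_iff₀ (by linarith)]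
      calc (N : ℝ) ≤ Q ^ (1 / (n : ℝ)) := hNQ
        _ = (Q ^ (1 / (n : ℝ)) / X) * X := by field_simp
        _ ≤ (Q ^ (1 / (n : ℝ)) / X) * (2 * L) :=
            mul_le_mul_of_nonneg_left this (by positivity)
        _ = _ := by ring
    have e2 : 1 ≤ Q ^ (1 / (n : ℝ)) / X := by
      rw [le_div_iff₀ (by linarith), one_mul, hX]
      apply Real.rpow_le_rpow_of_exponent_le hQ1
      apply one_div_le_one_div_of_le hnR
      exact_mod_cast hnm
    linarith
  calc ‖S χ M N‖ ≤ ((N : ℝ) / L + 1) * B := h2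
    _ ≤ (3 * (Q ^ (1 / (n : ℝ)) / X)) * B := mul_le_mul_of_nonneg_right h4 hB0
    _ = 3 * |c| * (Q ^ (1 / (n : ℝ)) / X * Q ^ ((1 - δ) / (m : ℝ) + ε)) := by rw [hB]; ring
    _ = 3 * |c| * Q ^ ((1 - δ * n / m) / (n : ℝ) + ε) := by
        congr 1
        rw [hX, ← Real.rpow_sub hQ0, ← Real.rpow_add hQ0]
        congr 1
        field_simp
        ring

theorem cu_main :
    (∀ n : ℕ, C All n ↔ C Prim n) ∧
    (∀ (q : ℕ) (χ : DirichletCharacter ℂ q), 1 ≤ q → χ ^ 3 = 1 → χ.IsPrimitive →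
      ∃ a s : ℕ, a ≤ 1 ∧ q = 9 ^ a * s ∧ Squarefree s ∧ ∀ p : ℕ, p.Prime → p ∣ s → p % 3 = 1) ∧
    (∀ n : ℕ, C All n ↔ C Cubefree n) ∧
    ((∀ n : ℕ, 3 ≤ n → C All n) ↔ ∀ k : ℕ, ∃ n : ℕ, k ≤ n ∧ C Prim n) := by
  have h1 : ∀ n : ℕ, C All n ↔ C Prim n := fun n =>
    ⟨mono (fun _ _ _ _ _ => trivial), all_of_prim⟩
  refine ⟨h1, fun q χ hq h3 hp => modulus_form hq χ h3 hp, ?_, ?_⟩
  · intro n
    constructor
    · exact mono (fun _ _ _ _ _ => trivial)
    · intro h
      exact all_of_prim (mono (fun q χ hq h3 hp => cubefree_of_prim hq χ h3 hp) h)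
  · constructor
    · intro h k
      exact ⟨max k 3, le_max_left _ _, (h1 _).mp (h _ (le_max_right _ _))⟩
    · intro h n hn
      obtain ⟨m, hm, hC⟩ := h n
      exact C_down (by omega) hm ((h1 m).mpr hC)

end Pool.Agent.X159.CU
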